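import Mathlib
import Pool.Agent.W307.RT.Defs

/-!
Project H (helper870), part CNTF, core: residues of linear forms modulo large primes.
-/

set_option autoImplicit false

namespace Pool.Agent.N80.H

open Finset Pool.Agent.W262.RK Pool.Agent.W307.RT

variable {J : Type}

theorem ndvd {p : ℕ} {n : ℤ} (hn : n ≠ 0) (h : n.natAbs < p) : ¬ (p : ℤ) ∣ n := fun hd => by
  have := Nat.le_of_dvd (Int.natAbs_pos.2 hn) (Int.natCast_dvd.1 hd)
  omega

theorem jac_even {p : ℕ} (hp : p.Prime) {x : ℤ} (hx : ¬ (p : ℤ) ∣ x) {E : ℕ} (hE : Even E) :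
    jacobiSym (x ^ E) p = 1 := by
  have h1 : IsCoprime (p : ℤ) x :=
    (Prime.coprime_iff_not_dvd (Nat.prime_iff_prime_int.1 hp)).2 hx
  have h2 : x.gcd p = 1 := Int.isCoprime_iff_gcd_eq_one.1 h1.symm
  rw [jacobiSym.pow_left]
  rcases jacobiSym.eq_one_or_neg_one h2 with h | h
  · rw [h, one_pow]
  · rw [h, hE.neg_one_pow]

/-- the points of a line other than zero -/
def Ln (α β : J → ℤ) (p : ℕ) (j : J) : Finset (ℕ × ℕ) :=
  (range p ×ˢ range p).filter (fun t => t ≠ (0, 0) ∧ (p : ℤ) ∣ fv α β t.1 t.2 j)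

theorem mem_Ln {α β : J → ℤ} {p : ℕ} {j : J} {t : ℕ × ℕ} : t ∈ Ln α β p j ↔
    (t.1 < p ∧ t.2 < p) ∧ t ≠ (0, 0) ∧ (p : ℤ) ∣ α j * t.1 + β j * t.2 := by
  rw [Ln, mem_filter, mem_product, mem_range, mem_range]
  rfl

theorem eq_zero_of_dvd {p n : ℕ} (hn : n < p) (h : (p : ℤ) ∣ (n : ℤ)) : n = 0 := by
  have h1 : p ∣ n := by exact_mod_cast h
  exact Nat.eq_zero_of_dvd_of_lt h1 hn

theorem Ln_snd {α β : J → ℤ} {p : ℕ} (hp : p.Prime) {j : J} (hα : ¬ (p : ℤ) ∣ α j) {t : ℕ × ℕ}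
    (ht : t ∈ Ln α β p j) : t.2 ≠ 0 := by
  rw [mem_Ln] at ht
  obtain ⟨⟨h1, h2⟩, h3, h4⟩ := ht
  intro h0
  rw [h0, Nat.cast_zero, mul_zero, add_zero] at h4
  have h5 := ((Nat.prime_iff_prime_int.1 hp).dvd_or_dvd h4).resolve_left hα
  exact h3 (Prod.ext (eq_zero_of_dvd h1 h5) h0)

theorem card_Ln (α β : J → ℤ) {p : ℕ} (hp : p.Prime) {j : J} (hα : ¬ (p : ℤ) ∣ α j) :
    (Ln α β p j).card = p - 1 := by
  have : Fact p.Prime := ⟨hp⟩
  have hpi := Nat.prime_iff_prime_int.1 hp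
  have h1 : (Ln α β p j).card = ((range p).erase 0).card := by
    refine card_nbij (fun t => t.2) ?_ ?_ ?_
    · intro t ht
      have h2 := Ln_snd hp hα (mem_coe.1 ht)
      rw [mem_coe, mem_Ln] at ht
      exact mem_coe.2 (mem_erase.2 ⟨h2, mem_range.2 ht.1.2⟩)
    · intro t ht t' ht' h
      rw [mem_coe, mem_Ln] at ht ht'
      simp only at h
      obtain ⟨⟨h2, _⟩, _, h3⟩ := ht
      obtain ⟨⟨h4, _⟩, _, h5⟩ := ht'
      rw [← h] at h5
      have h6 : (p : ℤ) ∣ α j * ((t.1 : ℤ) - t'.1) := by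
        have := dvd_sub h3 h5
        have e : α j * (t.1 : ℤ) + β j * t.2 - (α j * t'.1 + β j * t.2) =
          α j * ((t.1 : ℤ) - t'.1) := by ring
        rwa [e] at this
      have h7 := (hpi.dvd_or_dvd h6).resolve_left hα
      have h8 : (t'.1 : ℤ) ≡ t.1 [ZMOD p] := (Int.modEq_iff_dvd).2 h7
      have h9 : t'.1 ≡ t.1 [MOD p] := (Int.natCast_modEq_iff).1 h8
      have h10 : t'.1 = t.1 := Nat.ModEq.eq_of_lt_of_lt h9 h4 h2
      exact Prod.ext h10.symm h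
    · intro y hy
      rw [mem_coe, mem_erase, mem_range] at hy
      have hα' : (α j : ZMod p) ≠ 0 := fun h => hα ((ZMod.intCast_zmod_eq_zero_iff_dvd _ _).1 h)
      refine ⟨((-((β j : ZMod p) * (y : ZMod p)) * (α j : ZMod p)⁻¹).val, y), ?_, rfl⟩
      rw [mem_coe, mem_Ln]
      refine ⟨⟨ZMod.val_lt _, hy.2⟩, fun h => hy.1 (congrArg Prod.snd h), ?_⟩
      rw [← ZMod.intCast_zmod_eq_zero_iff_dvd]
      push_cast
      rw [ZMod.natCast_val, ZMod.cast_id', id]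
      field_simp
      ring
  rw [h1, card_erase_of_mem (mem_range.2 hp.pos), card_range]

theorem disj_Ln (α β : J → ℤ) {p : ℕ} (hp : p.Prime) {j l : J} (hR : ¬ (p : ℤ) ∣ Res α β j l) :
    Disjoint (Ln α β p j) (Ln α β p l) := by
  rw [disjoint_left]
  intro t ht ht'
  rw [mem_Ln] at ht ht'
  obtain ⟨⟨h1, h2⟩, h3, h4⟩ := ht
  obtain ⟨_, _, h5⟩ := ht'
  have hpi := Nat.prime_iff_prime_int.1 hp
  have hx : (p : ℤ) ∣ Res α β j l * (t.1 : ℤ) := by
    have := dvd_sub (Dvd.dvd.mul_left h4 (β l)) (Dvd.dvd.mul_left h5 (β j))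
    have e : β l * (α j * (t.1 : ℤ) + β j * t.2) - β j * (α l * t.1 + β l * t.2) =
        Res α β j l * (t.1 : ℤ) := by unfold Res; ring
    rwa [e] at this
  have hy : (p : ℤ) ∣ Res α β j l * (t.2 : ℤ) := by
    have := dvd_sub (Dvd.dvd.mul_left h5 (α j)) (Dvd.dvd.mul_left h4 (α l))
    have e : α j * (α l * (t.1 : ℤ) + β l * t.2) - α l * (α j * t.1 + β j * t.2) =
        Res α β j l * (t.2 : ℤ) := by unfold Res; ring
    rwa [e] at this
  exact h3 (Prod.ext (eq_zero_of_dvd h1 ((hpi.dvd_or_dvd hx).resolve_left hR))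
    (eq_zero_of_dvd h2 ((hpi.dvd_or_dvd hy).resolve_left hR)))

variable [Fintype J] [DecidableEq J]

theorem mem_fc {cls : J → Fin 4} {k : Fin 3} {l : J} : l ∈ fc cls k ↔ cls l = k.castSucc := by
  rw [fc, mem_filter]
  exact ⟨fun h => h.2, fun h => ⟨mem_univ _, h⟩⟩

/-- divisibility of the values -/
theorem dvd_FM {cls : J → Fin 4} {a : Fin 3 → ℤ} {μ : J → ℕ} {f : J → ℤ} {p : ℕ} (hp : p.Prime)
    {k : Fin 3} (ha : ¬ (p : ℤ) ∣ a k) (hμ : ∀ j, 1 ≤ μ j) :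
    (p : ℤ) ∣ FM cls a μ f k ↔ ∃ l, cls l = k.castSucc ∧ (p : ℤ) ∣ f l := by
  have hpi := Nat.prime_iff_prime_int.1 hp
  unfold FM
  constructor
  · intro h
    have h1 := (hpi.dvd_or_dvd h).resolve_left ha
    obtain ⟨l, hl, h2⟩ := (Prime.dvd_finsetProd_iff hpi _).1 h1
    exact ⟨l, mem_fc.1 hl, hpi.dvd_of_dvd_pow h2⟩
  · rintro ⟨l, hl, h⟩
    refine Dvd.dvd.mul_left ?_ _
    have h1 : f l ^ μ l ∣ ∏ l ∈ fc cls k, f l ^ μ l :=
      dvd_prod_of_mem (fun l => f l ^ μ l) (mem_fc.2 hl)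
    exact (h.trans (dvd_pow_self _ (by have := hμ l; omega))).trans h1

/-- all classes are not empty -/
theorem classes [Nonempty J] {cls : J → Fin 4} {a : Fin 3 → ℤ} {μ : J → ℕ} {α β : J → ℤ}
    (hcl : ∀ j, cls j ≠ 3) (ha : ∀ k, a k ≠ 0) (hμ : ∀ j, 1 ≤ μ j) (hα : ∀ j, α j ≠ 0)
    (rel : ∀ u v : ℤ, FM cls a μ (fv α β u v) 0 - FM cls a μ (fv α β u v) 1 =
      FM cls a μ (fv α β u v) 2) : ∀ k, (fc cls k).Nonempty := by
  -- the values at zero
  have hz : ∀ k, (fc cls k).Nonempty → FM cls a μ (fv α β 0 0) k = 0 := by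
    rintro k ⟨l, hl⟩
    unfold FM
    rw [prod_eq_zero hl, mul_zero]
    unfold fv
    rw [mul_zero, mul_zero, add_zero]
    exact zero_pow (by have := hμ l; omega)
  have he : ∀ k u v, fc cls k = ∅ → FM cls a μ (fv α β u v) k = a k := by
    intro k u v h
    unfold FM
    rw [h, prod_empty, mul_one]
  have hne : ∀ k, FM cls a μ (fv α β 1 0) k ≠ 0 := by
    intro k
    unfold FM
    refine mul_ne_zero (ha k) (prod_ne_zero_iff.2 fun l _ => pow_ne_zero _ ?_)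
    unfold fv
    rw [mul_one, mul_zero, add_zero]
    exact hα l
  have hJ : ∃ k, (fc cls k).Nonempty := by
    obtain ⟨j⟩ := ‹Nonempty J›
    have h3 := hcl j
    have h4 : ∃ k : Fin 3, cls j = k.castSucc := by
      generalize cls j = c at h3
      fin_cases c
      · exact ⟨0, rfl⟩
      · exact ⟨1, rfl⟩
      · exact ⟨2, rfl⟩
      · exact absurd rfl h3
    obtain ⟨k, hk⟩ := h4
    exact ⟨k, j, mem_fc.2 hk⟩
  have r0 := rel 0 0
  have r1 := rel 1 0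
  by_cases c0 : (fc cls 0).Nonempty <;> by_cases c1 : (fc cls 1).Nonempty <;>
    by_cases c2 : (fc cls 2).Nonempty
  · intro k
    fin_cases k
    · exact c0
    · exact c1
    · exact c2
  · exfalso
    rw [not_nonempty_iff_eq_empty] at c2
    rw [hz 0 c0, hz 1 c1, he 2 _ _ c2] at r0
    exact ha 2 (by linarith)
  · exfalso
    rw [not_nonempty_iff_eq_empty] at c1
    rw [hz 0 c0, he 1 _ _ c1, hz 2 c2] at r0
    exact ha 1 (by linarith)
  · exfalso
    rw [not_nonempty_iff_eq_empty] at c1 c2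
    rw [hz 0 c0, he 1 _ _ c1, he 2 _ _ c2] at r0
    rw [he 1 _ _ c1, he 2 _ _ c2] at r1
    exact hne 0 (by linarith)
  · exfalso
    rw [not_nonempty_iff_eq_empty] at c0
    rw [he 0 _ _ c0, hz 1 c1, hz 2 c2] at r0
    exact ha 0 (by linarith)
  · exfalso
    rw [not_nonempty_iff_eq_empty] at c0 c2
    rw [he 0 _ _ c0, hz 1 c1, he 2 _ _ c2] at r0
    rw [he 0 _ _ c0, he 2 _ _ c2] at r1
    exact hne 1 (by linarith)
  · exfalso
    rw [not_nonempty_iff_eq_empty] at c0 c1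
    rw [he 0 _ _ c0, he 1 _ _ c1, hz 2 c2] at r0
    rw [he 0 _ _ c0, he 1 _ _ c1] at r1
    exact hne 2 (by linarith)
  · exfalso
    obtain ⟨k, hk⟩ := hJ
    fin_cases k
    · exact c0 hk
    · exact c1 hk
    · exact c2 hk

/-- the symbol on a line of the class two -/
theorem jac_line {cls : J → Fin 4} {a : Fin 3 → ℤ} {μ : J → ℕ} {α β : J → ℤ} {p : ℕ}
    (hp : p.Prime) (hev : Even (∑ l ∈ fc cls 0, μ l)) {j : J} (hj : cls j = 2)
    (hα : ¬ (p : ℤ) ∣ α j) {t : ℕ × ℕ} (ht : t ∈ Ln α β p j) :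
    jacobiSym (FM cls a μ (fv α β t.1 t.2) 0) p = jacobiSym (kapM cls a μ α β j) p := by
  have hy : ¬ (p : ℤ) ∣ (t.2 : ℤ) := by
    intro h
    have h1 := ht
    rw [mem_Ln] at h1
    exact Ln_snd hp hα ht (eq_zero_of_dvd h1.1.2 h)
  rw [mem_Ln] at ht
  obtain ⟨_, _, h4⟩ := ht
  obtain ⟨E, hE⟩ : ∃ E, E = ∑ l ∈ fc cls 0, μ l := ⟨_, rfl⟩
  rw [← hE] at hev
  have hk : kapM cls a μ α β j = a 0 * ∏ l ∈ fc cls 0, Res α β j l ^ μ l := by
    have e1 : cpM (cls j) = 0 := by rw [hj]; rfl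
    have e2 : sgM (cls j) = 1 := by rw [hj]; rfl
    unfold kapM
    rw [e1, e2, one_mul]
  have hz : ((α j : ZMod p)) * (t.1 : ZMod p) + (β j : ZMod p) * (t.2 : ZMod p) = 0 := by
    have := (ZMod.intCast_zmod_eq_zero_iff_dvd _ _).2 h4
    push_cast at this
    exact this
  have hcong : ((α j ^ E * FM cls a μ (fv α β t.1 t.2) 0 : ℤ) : ZMod p) =
      (((t.2 : ℤ) ^ E * kapM cls a μ α β j : ℤ) : ZMod p) := by
    rw [hk]
    unfold FM fv
    rw [hE]
    push_cast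
    rw [← prod_pow_eq_pow_sum, ← prod_pow_eq_pow_sum]
    have e1 : (∏ l ∈ fc cls 0, (α j : ZMod p) ^ μ l) *
        ((a 0 : ZMod p) * ∏ l ∈ fc cls 0, ((α l : ZMod p) * (t.1 : ZMod p) +
          (β l : ZMod p) * (t.2 : ZMod p)) ^ μ l) = (a 0 : ZMod p) * ∏ l ∈ fc cls 0,
          ((α j : ZMod p) * ((α l : ZMod p) * (t.1 : ZMod p) +
          (β l : ZMod p) * (t.2 : ZMod p))) ^ μ l := by
      rw [mul_left_comm, ← prod_mul_distrib]
      congr 1
      refine prod_congr rfl fun l _ => ?_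
      rw [mul_pow]
    have e2 : (∏ l ∈ fc cls 0, (t.2 : ZMod p) ^ μ l) *
        ((a 0 : ZMod p) * ∏ l ∈ fc cls 0, ((Res α β j l : ℤ) : ZMod p) ^ μ l) =
          (a 0 : ZMod p) * ∏ l ∈ fc cls 0, ((t.2 : ZMod p) * ((Res α β j l : ℤ) : ZMod p)) ^ μ l := by
      rw [mul_left_comm, ← prod_mul_distrib]
      congr 1
      refine prod_congr rfl fun l _ => ?_
      rw [mul_pow]
    rw [e1, e2]
    congr 1
    refine prod_congr rfl fun l _ => ?_
    congr 1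
    unfold Res
    push_cast
    linear_combination (α l : ZMod p) * hz
  have hmod : (α j ^ E * FM cls a μ (fv α β t.1 t.2) 0) % (p : ℤ) =
      ((t.2 : ℤ) ^ E * kapM cls a μ α β j) % (p : ℤ) :=
    (ZMod.intCast_eq_intCast_iff _ _ _).1 hcong
  have hjac := jacobiSym.mod_left' hmod
  rw [jacobiSym.mul_left, jacobiSym.mul_left, jac_even hp hα hev, jac_even hp hy hev, one_mul,
    one_mul] at hjac
  exact hjac

theorem core [Nonempty J] {cls : J → Fin 4} {a : Fin 3 → ℤ} {μ : J → ℕ} {α β : J → ℤ}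
    (hcl : ∀ j, cls j ≠ 3) (ha : ∀ k, a k ≠ 0) (hμ : ∀ j, 1 ≤ μ j) (hα : ∀ j, α j ≠ 0)
    (hres : ∀ j l, j ≠ l → Res α β j l ≠ 0) (hev : ∀ k, Even (∑ l ∈ fc cls k, μ l))
    (rel : ∀ u v : ℤ, FM cls a μ (fv α β u v) 0 - FM cls a μ (fv α β u v) 1 =
      FM cls a μ (fv α β u v) 2) : ∃ p0 : ℕ, ∀ p : ℕ, p.Prime → p0 ≤ p →
    ∀ S₁ S₂ : Finset (ℕ × ℕ),
    (∀ t : ℕ × ℕ, t ∈ S₁ ↔ (t.1 < p ∧ t.2 < p) ∧
      ((p : ℤ) ∣ FM cls a μ (fv α β t.1 t.2) 0 - FM cls a μ (fv α β t.1 t.2) 1 ∧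
        jacobiSym (FM cls a μ (fv α β t.1 t.2) 0) p = 1)) →
    (∀ t : ℕ × ℕ, t ∈ S₂ ↔ (t.1 < p ∧ t.2 < p) ∧
      (p : ℤ) ∣ FM cls a μ (fv α β t.1 t.2) 0 * FM cls a μ (fv α β t.1 t.2) 1) →
    S₁.card = (p - 1) *
      (univ.filter (fun j => cls j = 2 ∧ jacobiSym (kapM cls a μ α β j) p = 1)).card ∧
    S₂.card = (p - 1) * (univ.filter (fun j => cls j ≠ 2)).card + 1 := by
  refine ⟨∑ k, (a k).natAbs + ∑ j, (α j).natAbs + ∑ j, ∑ l, (Res α β j l).natAbs + 3,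
    fun p hp hp0 S₁ S₂ hS₁ hS₂ => ?_⟩
  have hpi := Nat.prime_iff_prime_int.1 hp
  have ha' : ∀ k, ¬ (p : ℤ) ∣ a k := fun k => by
    have : (a k).natAbs ≤ ∑ k, (a k).natAbs :=
      single_le_sum (f := fun k => (a k).natAbs) (fun _ _ => Nat.zero_le _) (mem_univ k)
    exact ndvd (ha k) (by omega)
  have hα' : ∀ j, ¬ (p : ℤ) ∣ α j := fun j => by
    have : (α j).natAbs ≤ ∑ j, (α j).natAbs :=
      single_le_sum (f := fun j => (α j).natAbs) (fun _ _ => Nat.zero_le _) (mem_univ j)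
    exact ndvd (hα j) (by omega)
  have hres' : ∀ j l, j ≠ l → ¬ (p : ℤ) ∣ Res α β j l := fun j l hjl => by
    have h1 : (Res α β j l).natAbs ≤ ∑ l, (Res α β j l).natAbs :=
      single_le_sum (f := fun l => (Res α β j l).natAbs) (fun _ _ => Nat.zero_le _) (mem_univ l)
    have h2 : ∑ l, (Res α β j l).natAbs ≤ ∑ j, ∑ l, (Res α β j l).natAbs :=
      single_le_sum (f := fun j => ∑ l, (Res α β j l).natAbs) (fun _ _ => Nat.zero_le _)
        (mem_univ j)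
    exact ndvd (hres j l hjl) (by omega)
  have hne := classes hcl ha hμ hα rel
  have hdvd : ∀ (t : ℕ × ℕ) (k : Fin 3), (p : ℤ) ∣ FM cls a μ (fv α β t.1 t.2) k ↔
      ∃ l, cls l = k.castSucc ∧ (p : ℤ) ∣ fv α β t.1 t.2 l := fun t k => dvd_FM hp (ha' k) hμ
  have hz : ∀ k, FM cls a μ (fv α β ((0 : ℕ) : ℤ) ((0 : ℕ) : ℤ)) k = 0 := by
    intro k
    obtain ⟨l, hl⟩ := hne k
    unfold FM
    rw [prod_eq_zero hl, mul_zero]
    unfold fv
    rw [Nat.cast_zero, mul_zero, mul_zero, add_zero]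
    exact zero_pow (by have := hμ l; omega)
  have hdisj : ∀ T : Finset J, ∀ j ∈ T, ∀ l ∈ T, j ≠ l →
      Disjoint (Ln α β p j) (Ln α β p l) := fun T j _ l _ hjl => disj_Ln α β hp (hres' j l hjl)
  constructor
  · have h1 : S₁ = (univ.filter (fun j => cls j = 2 ∧
        jacobiSym (kapM cls a μ α β j) p = 1)).biUnion (Ln α β p) := by
      ext t
      rw [hS₁, mem_biUnion, rel]
      constructor
      · rintro ⟨ht, h2, h3⟩
        have ht0 : t ≠ (0, 0) := by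
          rintro rfl
          simp only at h3
          rw [hz 0, jacobiSym.zero_left hp.one_lt] at h3
          exact zero_ne_one h3
        obtain ⟨l, hl, h4⟩ := (hdvd t 2).1 h2
        have hmem : t ∈ Ln α β p l := mem_Ln.2 ⟨ht, ht0, h4⟩
        refine ⟨l, mem_filter.2 ⟨mem_univ _, hl, ?_⟩, hmem⟩
        rw [← jac_line hp (hev 0) hl (hα' l) hmem]
        exact h3
      · rintro ⟨l, hl, hmem⟩
        rw [mem_filter] at hl
        obtain ⟨_, hl2, hl3⟩ := hl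
        have h5 := mem_Ln.1 hmem
        refine ⟨h5.1, (hdvd t 2).2 ⟨l, hl2, h5.2.2⟩, ?_⟩
        rw [jac_line hp (hev 0) hl2 (hα' l) hmem]
        exact hl3
    rw [h1, card_biUnion (hdisj _), sum_congr rfl fun j _ => card_Ln α β hp (hα' j), sum_const,
      smul_eq_mul, mul_comm]
  · have h0 : ((0, 0) : ℕ × ℕ) ∉ (univ.filter (fun j => cls j ≠ 2)).biUnion (Ln α β p) := by
      rw [mem_biUnion]
      rintro ⟨l, _, h⟩
      exact (mem_Ln.1 h).2.1 rfl
    have h1 : S₂ = insert (0, 0) ((univ.filter (fun j => cls j ≠ 2)).biUnion (Ln α β p)) := by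
      ext t
      rw [hS₂, mem_insert, mem_biUnion]
      constructor
      · rintro ⟨ht, h2⟩
        by_cases ht0 : t = (0, 0)
        · exact Or.inl ht0
        · right
          rcases hpi.dvd_or_dvd h2 with h3 | h3
          · obtain ⟨l, hl, h4⟩ := (hdvd t 0).1 h3
            exact ⟨l, mem_filter.2 ⟨mem_univ _, by rw [hl]; decide⟩, mem_Ln.2 ⟨ht, ht0, h4⟩⟩
          · obtain ⟨l, hl, h4⟩ := (hdvd t 1).1 h3
            exact ⟨l, mem_filter.2 ⟨mem_univ _, by rw [hl]; decide⟩, mem_Ln.2 ⟨ht, ht0, h4⟩⟩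
      · rintro (rfl | ⟨l, hl, hmem⟩)
        · refine ⟨⟨hp.pos, hp.pos⟩, ?_⟩
          simp only
          rw [hz 0, zero_mul]
          exact dvd_zero _
        · rw [mem_filter] at hl
          have h5 := mem_Ln.1 hmem
          refine ⟨h5.1, ?_⟩
          have h6 : cls l = 0 ∨ cls l = 1 := by
            have h7 := hcl l
            have h8 := hl.2
            generalize cls l = c at h7 h8
            fin_cases c
            · exact Or.inl rfl
            · exact Or.inr rfl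
            · exact absurd rfl h8
            · exact absurd rfl h7
          rcases h6 with h6 | h6
          · exact Dvd.dvd.mul_right ((hdvd t 0).2 ⟨l, h6, h5.2.2⟩) _
          · exact Dvd.dvd.mul_left ((hdvd t 1).2 ⟨l, h6, h5.2.2⟩) _
    rw [h1, card_insert_of_notMem h0, card_biUnion (hdisj _),
      sum_congr rfl fun j _ => card_Ln α β hp (hα' j), sum_const, smul_eq_mul, mul_comm]

end Pool.Agent.N80.H
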