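import Pool.Agent.N870.H.Stm
import Pool.Agent.N80.H.CNTF0

/-!
Project H (helper870), part CNTF.
-/

set_option autoImplicit false

namespace Pool.Agent.N80.H

open Finset Pool.Agent.W262.RK Pool.Agent.W307.RT

open scoped Classical in
theorem t_CNTF : Pool.Agent.N870.H.S_CNTF := by
  intro J _ _ _ cls a μ α β h
  obtain ⟨p0, hp0⟩ := core h.cl h.a0 h.mu h.al h.res h.ev h.rel
  refine ⟨p0, fun p hp hpp => ?_⟩
  obtain ⟨h1, h2⟩ := hp0 p hp hpp
    ((range p ×ˢ range p).filter (fun t : ℕ × ℕ =>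
      (p : ℤ) ∣ FM cls a μ (fv α β t.1 t.2) 0 - FM cls a μ (fv α β t.1 t.2) 1 ∧
        jacobiSym (FM cls a μ (fv α β t.1 t.2) 0) p = 1))
    ((range p ×ˢ range p).filter (fun t : ℕ × ℕ =>
      (p : ℤ) ∣ FM cls a μ (fv α β t.1 t.2) 0 * FM cls a μ (fv α β t.1 t.2) 1))
    (fun t => by rw [mem_filter, mem_product, mem_range, mem_range])
    (fun t => by rw [mem_filter, mem_product, mem_range, mem_range])
  unfold Pool.Agent.N870.EC.cnt
  refine ⟨?_, ?_⟩
  · convert h1
  · convert h2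

end Pool.Agent.N80.H
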